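import Mathlib
import Pool.Agent.Y181.SK.Field

/-!
# Over every field there is a two-sided principal ideal domain, right and left primitive, which is
not a subdirect product of subdirectly indecomposable right primitive rings

The ring is the ring of twisted polynomials `∑ xⁱ cᵢ`, `a x = x τ(a)`, over `K = k(tₙ : n ∈ ℤ)` with
the shift `τ` of the variables. All definitions used in the statement are in
`Pool/Agent/Y181/SK/Base.lean` (right actions, simple and faithful modules, right primitive rings,
subdirectly indecomposable rings) and `Pool/Agent/Y181/SK/Ext.lean` (right and left ideals).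
-/

set_option autoImplicit false

universe u

namespace Pool.Agent.Results.MP_150040_al.EveryField

open Pool.Agent.Y181.SK

/-- For every field `k` there is a `k`-algebra `R` (with identity) such that `R` has no zero
divisors, every right ideal is generated by one element, every left ideal is generated by one
element, `R` is right primitive and left primitive (its opposite ring is right primitive), there is
an element `x ≠ 0` which lies in every nonzero two-sided ideal `J` with `R / J` right primitive,
`R` is not subdirectly indecomposable, and no family of two-sided ideals with zero intersection has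
all its quotients right primitive and subdirectly indecomposable. -/
theorem result (k : Type u) [Field k] :
    ∃ (R : Type u) (_ : Ring R) (_ : Algebra k R),
      IsDomain R ∧
      (∀ I : AddSubgroup R, IsRightIdeal I → ∃ g, ∀ f, f ∈ I ↔ ∃ q, f = g * q) ∧
      (∀ I : AddSubgroup R, IsLeftIdeal I → ∃ g, ∀ f, f ∈ I ↔ ∃ q, f = q * g) ∧
      IsRightPrimitive R ∧ IsRightPrimitive Rᵐᵒᵖ ∧
      (∃ x : R, x ≠ 0 ∧ ∀ J : TwoSidedIdeal R, J ≠ ⊥ →
        IsRightPrimitive J.ringCon.Quotient → x ∈ J) ∧
      ¬ IsSubdirectlyIndecomposable R ∧
      ∀ 𝒥 : Set (TwoSidedIdeal R), (∀ J ∈ 𝒥, IsRightPrimitive J.ringCon.Quotient ∧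
        IsSubdirectlyIndecomposable J.ringCon.Quotient) → sInf 𝒥 ≠ ⊥ :=
  main k

end Pool.Agent.Results.MP_150040_al.EveryField
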